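import Pool.Agent.Helper41.Cluster4.Goals
import Pool.Agent.Helper41.Cluster4.Tools

/-! Packet OC (2572): a group of order 48 with rotation subgroup of order 24 consists of the
signed permutations. -/

namespace Pool.Agent.Helper30.Cl4

open Module Pool.Agent.Helper65.Delone Pool.Agent.Helper41.Cluster4
open scoped RealInnerProductSpace

variable {E : Type*} [NormedAddCommGroup E] [InnerProductSpace ℝ E]

theorem mul_app (A B : E ≃ₗᵢ[ℝ] E) (v : E) : (A * B) v = A (B v) := rfl

theorem inv_app (A : E ≃ₗᵢ[ℝ] E) (v : E) : A⁻¹ (A v) = v := A.symm_apply_apply v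

theorem inv_fix {A : E ≃ₗᵢ[ℝ] E} {v : E} (h : A v = v) : A⁻¹ v = v := by
  have h2 := inv_app A v
  rwa [h] at h2

theorem app_inv (A : E ≃ₗᵢ[ℝ] E) (v : E) : A (A⁻¹ v) = v := A.apply_symm_apply v

theorem det_coe_mul (A B : E ≃ₗᵢ[ℝ] E) :
    LinearMap.det ((A * B).toLinearEquiv : E →ₗ[ℝ] E) =
      LinearMap.det (A.toLinearEquiv : E →ₗ[ℝ] E) *
      LinearMap.det (B.toLinearEquiv : E →ₗ[ℝ] E) := by
  have h : ((A * B).toLinearEquiv : E →ₗ[ℝ] E) =
      (A.toLinearEquiv : E →ₗ[ℝ] E) * (B.toLinearEquiv : E →ₗ[ℝ] E) := rfl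
  rw [h, map_mul]

theorem rot_conj {A B : E ≃ₗᵢ[ℝ] E} (hB : Rot B) : Rot (A * B * A⁻¹) := by
  unfold Rot at *
  rw [det_coe_mul, det_coe_mul]
  have h1 : LinearMap.det ((A * A⁻¹ : E ≃ₗᵢ[ℝ] E).toLinearEquiv : E →ₗ[ℝ] E) = 1 := by
    rw [mul_inv_cancel]
    have h : ((1 : E ≃ₗᵢ[ℝ] E).toLinearEquiv : E →ₗ[ℝ] E) = 1 := rfl
    rw [h, map_one]
  rw [det_coe_mul] at h1
  have : LinearMap.det (A.toLinearEquiv : E →ₗ[ℝ] E) * LinearMap.det (B.toLinearEquiv : E →ₗ[ℝ] E) *
      LinearMap.det ((A⁻¹).toLinearEquiv : E →ₗ[ℝ] E) =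
      (LinearMap.det (A.toLinearEquiv : E →ₗ[ℝ] E) *
        LinearMap.det ((A⁻¹).toLinearEquiv : E →ₗ[ℝ] E)) *
        LinearMap.det (B.toLinearEquiv : E →ₗ[ℝ] E) := by ring
  rw [this, h1, one_mul]
  exact hB

/-- The stabilizer of `A u` in the rotations is conjugate to the one of `u`. -/
theorem card_stb_map {H : Subgroup (E ≃ₗᵢ[ℝ] E)} {A : E ≃ₗᵢ[ℝ] E} (hA : A ∈ H) (u : E) :
    Nat.card (stb (rt H) (A u)) = Nat.card (stb (rt H) u) := by
  apply Nat.card_congr
  refine
    { toFun := fun B => ⟨A⁻¹ * B.1 * A, ⟨⟨H.mul_mem (H.mul_mem (H.inv_mem hA) B.2.1.1) hA, ?_⟩, ?_⟩⟩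
      invFun := fun B => ⟨A * B.1 * A⁻¹, ⟨⟨H.mul_mem (H.mul_mem hA B.2.1.1) (H.inv_mem hA), ?_⟩, ?_⟩⟩
      left_inv := fun B => ?_
      right_inv := fun B => ?_ }
  · have := rot_conj (A := A⁻¹) B.2.1.2
    rwa [inv_inv] at this
  · have h : (B.1 : E ≃ₗᵢ[ℝ] E) (A u) = A u := B.2.2
    rw [mul_app, mul_app, h, inv_app]
  · exact rot_conj B.2.1.2
  · have h : (B.1 : E ≃ₗᵢ[ℝ] E) u = u := B.2.2
    rw [mul_app, mul_app, inv_app, h]
  · apply Subtype.ext
    simp only
    group
  · apply Subtype.ext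
    simp only
    group

theorem stb_neg (G : Subgroup (E ≃ₗᵢ[ℝ] E)) (u : E) : stb G (-u) = stb G u := by
  ext A
  rw [mem_stb, mem_stb, map_neg, neg_inj]

/-- three independent vectors -/
theorem indep3 {y u q : E} (hy : ‖y‖ = 1) (hu : ‖u‖ = 1) (hq : ‖q‖ = 1) (huy : ⟪u, y⟫ = 0)
    (hqy : ⟪q, y⟫ = 0) (h1 : q ≠ u) (h2 : q ≠ -u) : LinearIndependent ℝ ![y, u, q] := by
  rw [Fintype.linearIndependent_iff]
  intro g hg
  simp only [Fin.sum_univ_three, Matrix.cons_val_zero, Matrix.cons_val_one,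
    Matrix.cons_val_two, Matrix.tail_cons, Matrix.head_cons] at hg
  have e0 : g 0 = 0 := by
    have := congrArg (fun x => ⟪x, y⟫) hg
    simp only [inner_add_left, inner_smul_left, huy, hqy, inner_zero_left, real_inner_self_eq_norm_sq,
      hy] at this
    simpa using this
  rw [e0, zero_smul, zero_add] at hg
  have e1 : g 1 • u = -(g 2 • q) := eq_neg_of_add_eq_zero_left hg
  have e2 : g 1 = g 2 ∨ g 1 = -g 2 := by
    have := congrArg norm e1
    rw [norm_smul, norm_neg, norm_smul, hu, hq, mul_one, mul_one, Real.norm_eq_abs,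
      Real.norm_eq_abs] at this
    exact abs_eq_abs.1 this
  have e3 : g 2 = 0 := by
    by_contra hne
    rcases e2 with e2 | e2
    · apply h2
      rw [e2, ← smul_neg] at e1
      have := smul_right_injective E hne e1
      rw [this, neg_neg]
    · apply h1
      rw [e2, neg_smul, neg_inj] at e1
      exact (smul_right_injective E hne e1).symm
  have e4 : g 1 = 0 := by
    rcases e2 with e2 | e2 <;> rw [e2, e3]
    exact neg_zero
  intro i
  fin_cases i
  · exact e0
  · exact e4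
  · exact e3

theorem octa [FiniteDimensional ℝ E] (hF : FixFacts E) : Octa E := by
  classical
  intro h4 H y hfin hy hfix hrt hcard hP
  obtain ⟨hF1, -, -⟩ := hF h4
  set P : Set E := {u : E | ‖u‖ = 1 ∧ ⟪u, y⟫ = 0 ∧ Nat.card (stb (rt H) u) = 4} with hPdef
  have hPfin : P.Finite := Set.finite_of_ncard_ne_zero (by rw [hP]; norm_num)
  -- (a)
  have ha : ∀ u ∈ P, -u ∈ P := by
    rintro u ⟨h1, h2, h3⟩
    exact ⟨by rw [norm_neg, h1], by rw [inner_neg_left, h2, neg_zero], by rw [stb_neg, h3]⟩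
  -- (b)
  have hb : ∀ A ∈ H, ∀ u ∈ P, A u ∈ P := by
    rintro A hA u ⟨h1, h2, h3⟩
    refine ⟨by rw [A.norm_map, h1], ?_, by rw [card_stb_map hA, h3]⟩
    have : ⟪A u, y⟫ = ⟪A u, A y⟫ := by rw [hfix A hA]
    rw [this, A.inner_map_map, h2]
  have hne0 : ∀ u ∈ P, u ≠ -u := by
    rintro u ⟨h1, -, -⟩ h
    have h2 : (2 : ℝ) • u = 0 := by
      rw [two_smul]
      nth_rewrite 2 [h]
      exact add_neg_cancel u
    have h3 : u = 0 := (smul_eq_zero.1 h2).resolve_left (by norm_num)
    rw [h3, norm_zero] at h1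
    exact zero_ne_one h1
  -- (c)
  have hc : ∀ u ∈ P, ∀ q ∈ P, q ≠ u → q ≠ -u → ⟪q, u⟫ = 0 := by
    intro u hu q hq h1 h2
    set S : Set E := P \ {u, -u} with hS
    have hSfin : S.Finite := hPfin.subset Set.sdiff_subset
    have hScard : S.ncard = 4 := by
      have hsub : ({u, -u} : Set E) ⊆ P := by
        intro w hw
        rcases hw with rfl | rfl
        · exact hu
        · exact ha u hu
      rw [hS, Set.ncard_sdiff hsub (Set.toFinite _), hP, Set.ncard_pair (hne0 u hu)]
    have hfinS : Finite (stb (rt H) u) := finite_stb (finite_rt hfin) u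
    let f : stb (rt H) u → E := fun A => (A : E ≃ₗᵢ[ℝ] E) q
    have hinj : Function.Injective f := by
      intro A B hAB
      have hAB' : (A : E ≃ₗᵢ[ℝ] E) q = (B : E ≃ₗᵢ[ℝ] E) q := hAB
      have hAu : (A : E ≃ₗᵢ[ℝ] E) u = u := A.2.2
      have hBu : (B : E ≃ₗᵢ[ℝ] E) u = u := B.2.2
      have hAy : (A : E ≃ₗᵢ[ℝ] E) y = y := hfix _ A.2.1.1
      have hBy : (B : E ≃ₗᵢ[ℝ] E) y = y := hfix _ B.2.1.1
      set C : E ≃ₗᵢ[ℝ] E := (B : E ≃ₗᵢ[ℝ] E)⁻¹ * A with hC
      have hrotC : Rot C := Rot.mul (Rot.inv B.2.1.2) A.2.1.2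
      have c1 : C y = y := by
        rw [hC, mul_app, hAy]
        exact inv_fix hBy
      have c2 : C u = u := by
        rw [hC, mul_app, hAu]
        exact inv_fix hBu
      have c3 : C q = q := by
        rw [hC, mul_app, hAB']
        exact inv_app _ _
      have hli := indep3 hy hu.1 hq.1 hu.2.1 hq.2.1 h1 h2
      have hsp : Submodule.span ℝ (Set.range ![y, u, q]) ≤ fixSpace C := by
        rw [Submodule.span_le]
        rintro _ ⟨i, rfl⟩
        fin_cases i
        · exact c1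
        · exact c2
        · exact c3
      have hfr : 3 ≤ finrank ℝ (fixSpace C) := by
        have := Submodule.finrank_mono hsp
        rwa [finrank_span_eq_card hli, Fintype.card_fin] at this
      have hC1 := hF1 C hrotC hfr
      apply Subtype.ext
      rw [hC] at hC1
      exact (inv_mul_eq_one.1 hC1).symm
    have hrange : Set.range f ⊆ S := by
      rintro _ ⟨A, rfl⟩
      refine ⟨hb _ A.2.1.1 q hq, ?_⟩
      have hAu : (A : E ≃ₗᵢ[ℝ] E) u = u := A.2.2
      rintro (h | h)
      · apply h1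
        have h' : (A : E ≃ₗᵢ[ℝ] E) q = (A : E ≃ₗᵢ[ℝ] E) u := by rw [hAu]; exact h
        exact (A : E ≃ₗᵢ[ℝ] E).injective h'
      · apply h2
        have h' : (A : E ≃ₗᵢ[ℝ] E) q = (A : E ≃ₗᵢ[ℝ] E) (-u) := by rw [map_neg, hAu]; exact h
        exact (A : E ≃ₗᵢ[ℝ] E).injective h'
    have hrcard : (Set.range f).ncard = 4 := by
      rw [← Set.image_univ, Set.ncard_image_of_injective _ hinj, Set.ncard_univ]
      exact hu.2.2
    have hEq : Set.range f = S :=
      Set.eq_of_subset_of_ncard_le hrange (by rw [hScard, hrcard]) hSfin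
    have hmq : -q ∈ S := by
      refine ⟨ha q hq, ?_⟩
      rintro (h | h)
      · exact h2 (by rw [← h, neg_neg])
      · exact h1 (neg_inj.1 h)
    rw [← hEq] at hmq
    obtain ⟨A, hA⟩ := hmq
    have hA' : (A : E ≃ₗᵢ[ℝ] E) q = -q := hA
    have hAu : (A : E ≃ₗᵢ[ℝ] E) u = u := A.2.2
    have := (A : E ≃ₗᵢ[ℝ] E).inner_map_map q u
    rw [hA', hAu, inner_neg_left] at this
    linarith
  -- (d)
  obtain ⟨e0, he0⟩ : P.Nonempty := by
    rw [← Set.ncard_pos hPfin, hP]; norm_num
  have hpair : ∀ u : E, ({u, -u} : Set E).ncard ≤ 2 := fun u => Set.ncard_insert_le _ _ |>.trans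
    (by rw [Set.ncard_singleton])
  obtain ⟨e1, he1, he1'⟩ : ∃ x ∈ P, x ∉ ({e0, -e0} : Set E) := by
    refine Set.exists_mem_notMem_of_ncard_lt_ncard ?_ (Set.toFinite _)
    rw [hP]
    have := hpair e0
    omega
  obtain ⟨e2, he2, he2'⟩ : ∃ x ∈ P, x ∉ ({e0, -e0} ∪ {e1, -e1} : Set E) := by
    refine Set.exists_mem_notMem_of_ncard_lt_ncard ?_ (Set.toFinite _)
    rw [hP]
    have := hpair e0
    have := hpair e1
    have := Set.ncard_union_le ({e0, -e0} : Set E) {e1, -e1}
    omega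
  simp only [Set.mem_union, Set.mem_insert_iff, Set.mem_singleton_iff, not_or] at he1' he2'
  let e : Fin 3 → E := ![e0, e1, e2]
  have heP : ∀ i, e i ∈ P := by
    intro i
    fin_cases i
    · exact he0
    · exact he1
    · exact he2
  have h10 : ⟪e1, e0⟫ = 0 := hc e0 he0 e1 he1 he1'.1 he1'.2
  have h20 : ⟪e2, e0⟫ = 0 := hc e0 he0 e2 he2 he2'.1.1 he2'.1.2
  have h21 : ⟪e2, e1⟫ = 0 := hc e1 he1 e2 he2 he2'.2.1 he2'.2.2
  have heo : Orthonormal ℝ e := by
    refine ⟨fun i => (heP i).1, ?_⟩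
    intro i j hij
    fin_cases i <;> fin_cases j <;>
      first
        | exact absurd rfl hij
        | exact h10
        | exact h20
        | exact h21
        | (show ⟪_, _⟫ = 0; rw [real_inner_comm]; first | exact h10 | exact h20 | exact h21)
  have hij : ∀ i j, ∀ s t : ℝ, (s = 1 ∨ s = -1) → (t = 1 ∨ t = -1) →
      s • e i = t • e j → i = j := by
    intro i j s t hs ht h
    by_contra hne
    have h1 := congrArg (fun x => ⟪x, e i⟫) h
    simp only [inner_smul_left, real_inner_self_eq_norm_sq, (heP i).1] at h1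
    have h2 : ⟪e j, e i⟫ = 0 := heo.2 (Ne.symm hne)
    rw [h2] at h1
    rcases hs with rfl | rfl <;> simp at h1
  -- the six points
  have hsix : ∀ w ∈ P, ∃ j : Fin 3, ∃ b : Bool, w = (if b then (1 : ℝ) else -1) • e j := by
    let F : Fin 3 × Bool → E := fun p => (if p.2 then (1 : ℝ) else -1) • e p.1
    have hsgn : ∀ b : Bool, (if b then (1 : ℝ) else -1) = 1 ∨ (if b then (1 : ℝ) else -1) = -1 := by
      intro b; cases b <;> simp
    have hFinj : Function.Injective F := by
      rintro ⟨i, b⟩ ⟨j, c⟩ h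
      have h' : (if b then (1 : ℝ) else -1) • e i = (if c then (1 : ℝ) else -1) • e j := h
      have hi := hij i j _ _ (hsgn b) (hsgn c) h'
      subst hi
      have he : e i ≠ 0 := by
        intro h0
        have := (heP i).1
        rw [h0, norm_zero] at this
        exact zero_ne_one this
      have h3 : (if b then (1 : ℝ) else -1) = (if c then (1 : ℝ) else -1) := smul_left_injective ℝ he h'
      have : b = c := by
        cases b <;> cases c <;> simp at h3 ⊢ <;> norm_num at h3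
      rw [this]
    have hFsub : Set.range F ⊆ P := by
      rintro _ ⟨⟨i, b⟩, rfl⟩
      cases b
      · have : F (i, false) = -e i := by simp [F]
        rw [this]
        exact ha _ (heP i)
      · have : F (i, true) = e i := by simp [F]
        rw [this]
        exact heP i
    have hFcard : (Set.range F).ncard = 6 := by
      rw [← Set.image_univ, Set.ncard_image_of_injective _ hFinj, Set.ncard_univ, Nat.card_prod]
      simp
    have hEq : Set.range F = P := Set.eq_of_subset_of_ncard_le hFsub (by rw [hP, hFcard]) hPfin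
    intro w hw
    rw [← hEq] at hw
    obtain ⟨⟨j, b⟩, rfl⟩ := hw
    exact ⟨j, b, rfl⟩
  -- (e)
  let T : Finset (Fin 3 → E) := (Finset.univ : Finset (Equiv.Perm (Fin 3) × (Fin 3 → Bool))).image
    (fun p => fun i => (if p.2 i then (1 : ℝ) else -1) • e (p.1 i))
  have hTcard : (T : Set (Fin 3 → E)).ncard ≤ 48 := by
    rw [Set.ncard_coe_finset]
    refine Finset.card_image_le.trans ?_
    rw [Finset.card_univ, Fintype.card_prod, Fintype.card_perm]
    simp [Nat.factorial]
  let g : (E ≃ₗᵢ[ℝ] E) → (Fin 3 → E) := fun A i => A (e i)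
  have hginj : Set.InjOn g (H : Set (E ≃ₗᵢ[ℝ] E)) := by
    intro A hA B hB hAB
    let v : Fin 4 → E := Fin.cons y e
    have hv : Orthonormal ℝ v := by
      refine ⟨?_, ?_⟩
      · intro i
        refine Fin.cases ?_ (fun i => ?_) i
        · exact hy
        · exact (heP i).1
      · intro i j
        refine Fin.cases ?_ (fun i => ?_) i <;> refine Fin.cases ?_ (fun j => ?_) j
        · intro h; exact absurd rfl h
        · intro _
          show ⟪y, e j⟫ = 0
          rw [real_inner_comm]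
          exact (heP j).2.1
        · intro _
          show ⟪e i, y⟫ = 0
          exact (heP i).2.1
        · intro h
          show ⟪e i, e j⟫ = 0
          exact heo.2 (fun hh => h (by rw [hh]))
    have hspan : Submodule.span ℝ (Set.range v) = ⊤ :=
      hv.linearIndependent.span_eq_top_of_card_eq_finrank' (by rw [Fintype.card_fin, h4])
    have hlin : (A.toLinearEquiv : E →ₗ[ℝ] E) = (B.toLinearEquiv : E →ₗ[ℝ] E) := by
      refine LinearMap.ext_on hspan ?_
      rintro _ ⟨i, rfl⟩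
      refine Fin.cases ?_ (fun i => ?_) i
      · show A y = B y
        rw [hfix A hA, hfix B hB]
      · show A (e i) = B (e i)
        exact congrFun hAB i
    ext w
    exact LinearMap.congr_fun hlin w
  have hgsub : g '' (H : Set (E ≃ₗᵢ[ℝ] E)) ⊆ (T : Set (Fin 3 → E)) := by
    rintro _ ⟨A, hA, rfl⟩
    have h1 : ∀ i, ∃ j : Fin 3, ∃ b : Bool, A (e i) = (if b then (1 : ℝ) else -1) • e j :=
      fun i => hsix _ (hb A hA _ (heP i))
    choose j b hjb using h1
    have hsgn : ∀ b : Bool, (if b then (1 : ℝ) else -1) = 1 ∨ (if b then (1 : ℝ) else -1) = -1 := by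
      intro b; cases b <;> simp
    have hsq : ∀ b : Bool, (if b then (1 : ℝ) else -1) * (if b then (1 : ℝ) else -1) = 1 := by
      intro b; cases b <;> simp
    have hjinj : Function.Injective j := by
      intro i i' hii
      have h2 : (if b i then (1 : ℝ) else -1) • A (e i) = e (j i) := by
        rw [hjb i, smul_smul, hsq, one_smul]
      have h3 : (if b i' then (1 : ℝ) else -1) • A (e i') = e (j i') := by
        rw [hjb i', smul_smul, hsq, one_smul]
      have h4 : A ((if b i then (1 : ℝ) else -1) • e i) =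
          A ((if b i' then (1 : ℝ) else -1) • e i') := by
        rw [map_smul, map_smul, h2, h3, hii]
      exact hij i i' _ _ (hsgn _) (hsgn _) (A.injective h4)
    have hjbij : Function.Bijective j := Finite.injective_iff_bijective.1 hjinj
    rw [Finset.mem_coe, Finset.mem_image]
    refine ⟨(Equiv.ofBijective j hjbij, b), Finset.mem_univ _, ?_⟩
    funext i
    exact (hjb i).symm
  have hgcard : (g '' (H : Set (E ≃ₗᵢ[ℝ] E))).ncard = 48 := by
    rw [hginj.ncard_image, ← hcard]
    rfl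
  have hEq : g '' (H : Set (E ≃ₗᵢ[ℝ] E)) = (T : Set (Fin 3 → E)) :=
    Set.eq_of_subset_of_ncard_le hgsub (by rw [hgcard]; exact hTcard) (Finset.finite_toSet T)
  refine ⟨e, heo, fun i => (heP i).2.1, ?_⟩
  intro σ ε hε
  have hmem : (fun i => ε i • e (σ i)) ∈ (T : Set (Fin 3 → E)) := by
    rw [Finset.mem_coe, Finset.mem_image]
    refine ⟨(σ, fun i => decide (ε i = 1)), Finset.mem_univ _, ?_⟩
    funext i
    rcases hε i with h | h
    · simp [h]
    · have : ¬ ((-1 : ℝ) = 1) := by norm_num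
      simp [h, this]
  rw [← hEq] at hmem
  obtain ⟨A, hA, hAe⟩ := hmem
  exact ⟨A, hA, fun i => congrFun hAe i⟩

end Pool.Agent.Helper30.Cl4
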